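import Mathlib
import Pool.Agent.N186.HK.Main

/-!
# Permanental ideals of Hankel matrices with `m + n ≥ 3 t - 1` are not prime

Let `2 ≤ t ≤ min (m, n)` and `m + n ≥ 3 t - 1`, and let `k` be a field of characteristic zero or of
odd characteristic `p > 2 t - max (m, n)`. The ideal generated by the permanents of the `t × t`
submatrices of the `m × n` Hankel matrix of variables is not prime. For a given `t` this leaves only
finitely many `(m, n)`, and if `max (m, n) ≥ 2 t - 2` the characteristic is any odd prime.

Idea, for `m ≤ n < 2 t - 1`: let `D` be the domain `k[X] / P_t`, put `e = n - t` and `g = t - 1 - e`,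
so that `m ≥ t + g`. Let `x` be the sequence of the variables in `D`. Some nonzero combination
`w i = ∑_{j ≤ e} c j * x (i + j)` of the first `e + 1` columns vanishes in the rows `i < e`; in the
rows `e ≤ i < t + g` it does not vanish, as the bordered minors are not in `P_t`. Expanding the
permanents with the rows `{0, …, e - 1} ∪ U`, `U` a set of `g + 1` of the `2 g + 1` rows
`e, …, t + g - 1`, and the columns `j ≤ e` and `e + 1, …, n - 1`, gives
`∑_{i ∈ U} w i * q (U \ {i}) = 0`, where `q T` is the permanent with the rows `{0, …, e - 1} ∪ T`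
and the columns `e + 1, …, n - 1`. As the inclusion matrix of the `g`-sets and the `(g + 1)`-sets of
a set with `2 g + 1` elements is invertible over `k`, all `q T` vanish in `D`. But no nonzero form of
degree `t - 1` is in `P_t`. For `n ≥ 2 t - 1` a similar argument puts into `P_t` the permanent of the
matrix with the columns `0, 0, 1, …, t - 2`, which has weight less than every element of `P_t`.
-/

set_option autoImplicit false

namespace Pool.Agent.Results.MP_9bc296_ag.HankelLarge

open Matrix

/-- The ideal `P_t(X)` generated by the permanents of all `t × t` submatrices of `X`. -/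
def permIdeal {R : Type*} [CommRing R] {m n : ℕ} (t : ℕ) (X : Matrix (Fin m) (Fin n) R) :
    Ideal R :=
  Ideal.span {x | ∃ (r : Fin t ↪o Fin m) (c : Fin t ↪o Fin n), x = (X.submatrix r c).permanent}

/-- The `m × n` Hankel matrix of the independent variables `z_1, …, z_{m + n - 1}`. Rows, columns and
variables are numbered from `0` here, so that the entry at `(i, j)` is the variable number `i + j`. -/
noncomputable def hankel (k : Type*) [Field k] (m n : ℕ) :
    Matrix (Fin m) (Fin n) (MvPolynomial (Fin (m + n - 1)) k) :=
  Matrix.of fun i j => MvPolynomial.X ⟨i.val + j.val, by omega⟩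

lemma isHankel (m n : ℕ) : Pool.Agent.N186.HK.IsHankel
    (fun (i : Fin m) (j : Fin n) => (⟨i.val + j.val, by omega⟩ : Fin (m + n - 1))) := by
  intro i j i' j'
  rw [Fin.mk.injEq]

lemma isHankel_transpose (m n : ℕ) : Pool.Agent.N186.HK.IsHankel
    (fun (i : Fin n) (j : Fin m) => (⟨j.val + i.val, by omega⟩ : Fin (m + n - 1))) := by
  intro i j i' j'
  rw [Fin.mk.injEq]
  omega

lemma aux {k : Type*} [Field k] (h2 : (2 : k) ≠ 0) {m n t : ℕ} (ht : 2 ≤ t) (hm : t ≤ m)
    (hn : t ≤ n) (hmn : 3 * t ≤ m + n + 1) (hfac : ((2 * t - max m n).factorial : k) ≠ 0) :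
    ¬ (permIdeal t (hankel k m n)).IsPrime := by
  rcases Nat.le_total m n with h | h
  · rw [max_eq_right h] at hfac
    exact Pool.Agent.N186.HK.aux h2 ht hm h hmn hfac (isHankel m n)
  · rw [max_eq_left h] at hfac
    have h1 := Pool.Agent.N186.HK.aux (k := k) h2 ht hn h (by omega) hfac
      (isHankel_transpose m n)
    have h2 := Pool.Agent.R831.PermIdeal.permIdeal_transpose (t := t) (hankel k m n)
    intro h3
    apply h1
    rw [show Pool.Agent.N186.HK.vm k (fun (i : Fin n) (j : Fin m) =>
      (⟨j.val + i.val, by omega⟩ : Fin (m + n - 1))) = (hankel k m n)ᵀ from rfl, h2]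
    exact h3

/-- Let `k` be a field of characteristic `p`, where `p = 0`, or `p` is odd and
`p > 2 t - max (m, n)`. For `2 ≤ t ≤ min (m, n)` with `m + n ≥ 3 t - 1`, the ideal generated by the
permanents of the `t × t` submatrices of the `m × n` Hankel matrix of variables is not prime. -/
theorem result (k : Type*) [Field k] (p : ℕ) [CharP k p] (m n t : ℕ) (ht : 2 ≤ t) (hm : t ≤ m)
    (hn : t ≤ n) (hmn : 3 * t ≤ m + n + 1) (hp : p = 0 ∨ (p ≠ 2 ∧ 2 * t < p + max m n)) :
    ¬ (permIdeal t (hankel k m n)).IsPrime := by
  refine aux ?_ ht hm hn hmn ?_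
  · intro h
    have h1 : ((2 : ℕ) : k) = 0 := by exact_mod_cast h
    rw [CharP.cast_eq_zero_iff k p] at h1
    rcases hp with rfl | ⟨hp, -⟩
    · rw [zero_dvd_iff] at h1
      omega
    · rcases CharP.char_is_prime_or_zero k p with h3 | h3
      · exact hp ((Nat.prime_dvd_prime_iff_eq h3 Nat.prime_two).1 h1)
      · subst h3
        rw [zero_dvd_iff] at h1
        omega
  · intro h
    rw [CharP.cast_eq_zero_iff k p] at h
    rcases CharP.char_is_prime_or_zero k p with h3 | h3
    · rw [h3.dvd_factorial] at h
      have := h3.pos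
      omega
    · subst h3
      rw [zero_dvd_iff] at h
      exact Nat.factorial_ne_zero _ h

end Pool.Agent.Results.MP_9bc296_ag.HankelLarge
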